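import Pool.Agent.Lib.MP_c1c973_an.CircDense

/- A Besicovitch cylindrical transformation over an irrational rotation of the circle all of whose
orbits are dense or discrete. -/

namespace Pool.Agent.Variants.MP_c1c973_an.CircleDichotomy

open Filter Topology Pool.Agent.Lib.MP_c1c973_an Pool.Agent.Lib.MP_c1c973_an.Circ

/-- The cylindrical transformation `(x, t) ↦ (x + α, t + φ x)` as a permutation of `X × ℝ`. -/
def cyl {X : Type} [AddCommGroup X] (α : X) (φ : X → ℝ) : Equiv.Perm (X × ℝ) where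
  toFun p := (p.1 + α, p.2 + φ p.1)
  invFun p := (p.1 - α, p.2 - φ (p.1 - α))
  left_inv p := by simp
  right_inv p := by simp

/-- The full `ℤ`-orbit of `p` under the cylindrical transformation. -/
def orbit {X : Type} [AddCommGroup X] (α : X) (φ : X → ℝ) (p : X × ℝ) : Set (X × ℝ) :=
  Set.range fun n : ℤ => (cyl α φ ^ n) p

/-- The orbit of `p` is discrete, in both senses: every point of the orbit has a neighbourhood
meeting the orbit only in that point, and the Birkhoff sums tend to infinity in absolute value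
as `|n| → ∞`. -/
def IsDiscreteOrbit {X : Type} [AddCommGroup X] [TopologicalSpace X] (α : X) (φ : X → ℝ)
    (p : X × ℝ) : Prop :=
  (∀ y ∈ orbit α φ p, ∃ U ∈ 𝓝 y, U ∩ orbit α φ p = {y}) ∧
    Tendsto (fun n : ℤ => |((cyl α φ ^ n) p).2 - p.2|) cofinite atTop

lemma isDiscreteOrbit_of_tendsto {X : Type} [AddCommGroup X] [MetricSpace X] (α : X) (φ : X → ℝ)
    (p : X × ℝ) (h : Tendsto (fun n : ℤ => |((cyl α φ ^ n) p).2 - p.2|) cofinite atTop) :
    IsDiscreteOrbit α φ p := by
  refine ⟨fun y hy => ?_, h⟩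
  have hfin : {n : ℤ | ¬(|y.2 - p.2| + 1 ≤ |((cyl α φ ^ n) p).2 - p.2|)}.Finite :=
    eventually_cofinite.1 (tendsto_atTop.1 h _)
  set K : Set (X × ℝ) := ((fun n : ℤ => (cyl α φ ^ n) p) ''
    {n : ℤ | ¬(|y.2 - p.2| + 1 ≤ |((cyl α φ ^ n) p).2 - p.2|)}) \ {y} with hK
  have hKc : IsClosed K := ((hfin.image _).subset Set.sdiff_subset).isClosed
  have hV : IsOpen {q : X × ℝ | |q.2 - p.2| < |y.2 - p.2| + 1} :=
    isOpen_lt (by fun_prop) continuous_const
  refine ⟨{q : X × ℝ | |q.2 - p.2| < |y.2 - p.2| + 1} ∩ Kᶜ,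
    (hV.inter hKc.isOpen_compl).mem_nhds ⟨by simp, by simp [hK]⟩, ?_⟩
  ext q
  constructor
  · rintro ⟨⟨h1, h2⟩, n, rfl⟩
    by_contra hne
    exact h2 ⟨⟨n, not_le.2 h1, rfl⟩, hne⟩
  · rintro rfl
    exact ⟨⟨by simp, by simp [hK]⟩, hy⟩

/-- the cocycle on the circle -/
noncomputable def phi (D : Data) (x : UnitAddCircle) : ℝ :=
  ∑' k, (D.c k * ‖D.q k • (x + (D.α : UnitAddCircle))‖ - D.c k * ‖D.q k • x‖)

lemma psi_coe (D : Data) (k : ℕ) (x : ℝ) : D.c k * ‖D.q k • (x : UnitAddCircle)‖ = D.ψ k x := by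
  unfold Data.ψ tent
  rw [← AddCircle.coe_zsmul, zsmul_eq_mul]

lemma phi_coe (D : Data) (x : ℝ) : phi D x = D.Ψ x 1 := by
  unfold phi Data.Ψ
  congr 1
  funext k
  rw [← AddCircle.coe_add, psi_coe, psi_coe, Int.cast_one, one_mul]

lemma continuous_phi (D : Data) : Continuous (phi D) := by
  refine continuous_tsum (u := D.s) (fun k => by fun_prop) (by simpa using D.summable_s 0) ?_
  intro k x
  induction x using QuotientAddGroup.induction_on with
  | H x =>
    have h := D.ψ_time k x 1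
    rw [Int.cast_one, one_mul, abs_one, one_mul] at h
    rw [← AddCircle.coe_add, psi_coe, psi_coe]
    exact h

lemma cyl_zpow (D : Data) (x t : ℝ) (n : ℤ) :
    (cyl (D.α : UnitAddCircle) (phi D) ^ n) (x, t) =
      (((x + n * D.α : ℝ) : UnitAddCircle), t + D.Ψ x n) := by
  have key : ∀ n : ℤ, cyl (D.α : UnitAddCircle) (phi D)
      (((x + n * D.α : ℝ) : UnitAddCircle), t + D.Ψ x n) =
      (((x + (n + 1 : ℤ) * D.α : ℝ) : UnitAddCircle), t + D.Ψ x (n + 1)) := by
    intro n
    change (((x + n * D.α : ℝ) : UnitAddCircle) + (D.α : UnitAddCircle),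
      t + D.Ψ x n + phi D ((x + n * D.α : ℝ) : UnitAddCircle)) = _
    rw [phi_coe, ← AddCircle.coe_add, D.Ψ_add, add_assoc t]
    congr 2
    push_cast
    ring
  induction n using Int.induction_on with
  | zero => simp [Data.Ψ_zero]
  | succ n ih =>
    rw [add_comm (n : ℤ) 1, zpow_one_add, Equiv.Perm.mul_apply, ih, key, add_comm (n : ℤ) 1]
  | pred n ih =>
    apply (cyl (D.α : UnitAddCircle) (phi D)).injective
    rw [key, ← Equiv.Perm.mul_apply, ← zpow_one_add]
    have : (1 : ℤ) + (-(n : ℤ) - 1) = -n := by ring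
    rw [this, sub_add_cancel, ih]

lemma dense_of_unbounded (D : Data) (x t : ℝ) (h1 : ¬BddBelow (Set.range (D.Ψ x)))
    (h2 : ¬BddAbove (Set.range (D.Ψ x))) :
    Dense (orbit (D.α : UnitAddCircle) (phi D) (x, t)) := by
  rw [Metric.dense_iff]
  rintro ⟨y, r⟩ ε hε
  induction y using QuotientAddGroup.induction_on with
  | H y =>
    obtain ⟨n, u, hn1, hn2⟩ := D.dense_core h1 h2 y (r - t) hε
    refine ⟨(cyl (D.α : UnitAddCircle) (phi D) ^ n) (x, t), ?_, n, rfl⟩
    rw [cyl_zpow, Metric.mem_ball, Prod.dist_eq, max_lt_iff]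
    constructor
    · rw [dist_eq_norm, ← AddCircle.coe_sub]
      refine (T_le (x + n * D.α - y) u).trans_lt ?_
      rwa [sub_right_comm]
    · rw [Real.dist_eq]
      rwa [show t + D.Ψ x n - r = D.Ψ x n - (r - t) by ring]

lemma tendsto_of_bddBelow (D : Data) {x : ℝ} (h : BddBelow (Set.range (D.Ψ x))) :
    Tendsto (fun n => |D.Ψ x n|) cofinite atTop := by
  obtain ⟨b, hb⟩ := h
  have h1 : ∀ n, -|b| ≤ D.Ψ x n := fun n => (neg_abs_le b).trans (hb ⟨n, rfl⟩)
  exact tendsto_abs_atTop_atTop.comp (D.tendsto_of_F_le (D.F_le_of_bdd (abs_nonneg b) h1))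

lemma bddBelow_half (D : Data) {x : ℝ} (h : BddAbove (Set.range (D.Ψ x))) :
    BddBelow (Set.range (D.Ψ (x - 1 / 2))) := by
  obtain ⟨b, hb⟩ := h
  refine ⟨-b, ?_⟩
  rintro _ ⟨n, rfl⟩
  rw [D.Ψ_half]
  exact neg_le_neg (hb ⟨n, rfl⟩)

lemma discrete_of_tendsto (D : Data) (x t : ℝ)
    (h : Tendsto (fun n => |D.Ψ x n|) cofinite atTop) :
    IsDiscreteOrbit (D.α : UnitAddCircle) (phi D) (x, t) := by
  refine isDiscreteOrbit_of_tendsto _ _ _ ?_
  simpa only [cyl_zpow, add_sub_cancel_left] using h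

/-- There are an irrational rotation of the circle and a continuous real function on the circle
whose cylindrical transformation has a dense orbit, has a discrete orbit, and has only dense or
discrete orbits. -/
theorem result :
    ∃ (α : ℝ) (φ : AddCircle (1 : ℝ) → ℝ), Irrational α ∧
      (∀ x : AddCircle (1 : ℝ), DenseRange fun n : ℤ => x + n • (α : AddCircle (1 : ℝ))) ∧
      Continuous φ ∧
      (∃ p : AddCircle (1 : ℝ) × ℝ, Dense (orbit (α : AddCircle (1 : ℝ)) φ p)) ∧
      (∃ p : AddCircle (1 : ℝ) × ℝ, IsDiscreteOrbit (α : AddCircle (1 : ℝ)) φ p) ∧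
      ∀ p : AddCircle (1 : ℝ) × ℝ,
        Dense (orbit (α : AddCircle (1 : ℝ)) φ p) ∨ IsDiscreteOrbit (α : AddCircle (1 : ℝ)) φ p := by
  obtain ⟨D⟩ := exists_data
  refine ⟨D.α, phi D, D.irrational, fun x => ?_, continuous_phi D, ?_, ?_, ?_⟩
  · have h0 : DenseRange fun n : ℤ => n • (D.α : AddCircle (1 : ℝ)) :=
      AddCircle.denseRange_zsmul_coe_iff.2 (by simpa using D.irrational)
    exact (Homeomorph.addLeft x).surjective.denseRange.comp h0 (Homeomorph.addLeft x).continuous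
  · exact ⟨(((1 / 4 : ℝ) : UnitAddCircle), 0), dense_of_unbounded D _ _
      (D.not_bdd_quarter (Or.inl rfl)) fun h => D.not_bdd_quarter (Or.inr rfl) (bddBelow_half D h)⟩
  · exact ⟨(((0 : ℝ) : UnitAddCircle), 0), discrete_of_tendsto D _ _
      (tendsto_abs_atTop_atTop.comp (D.tendsto_of_F_le (S := 0) fun K => (D.F_zero _).le))⟩
  · rintro ⟨x, t⟩
    induction x using QuotientAddGroup.induction_on with
    | H x =>
      by_cases h1 : BddBelow (Set.range (D.Ψ x))
      · exact Or.inr (discrete_of_tendsto D x t (tendsto_of_bddBelow D h1))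
      by_cases h2 : BddAbove (Set.range (D.Ψ x))
      · refine Or.inr (discrete_of_tendsto D x t ?_)
        simpa only [D.Ψ_half, abs_neg] using tendsto_of_bddBelow D (bddBelow_half D h2)
      exact Or.inl (dense_of_unbounded D x t h1 h2)

end Pool.Agent.Variants.MP_c1c973_an.CircleDichotomy
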