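import Pool.Agent.Lib.MP_c1c973_an.Dense

/- A Besicovitch cylindrical transformation all of whose orbits are dense or discrete.
The base is the triadic odometer `x ↦ x + 1` on the 3-adic integers. -/

namespace Pool.Agent.Variants.MP_c1c973_an.DenseOrDiscrete

open Filter Topology Pool.Agent.Lib.MP_c1c973_an

/-- The cylindrical transformation `(x, t) ↦ (x + α, t + φ x)` as a permutation of `X × ℝ`. -/
def cyl {X : Type} [AddCommGroup X] (α : X) (φ : X → ℝ) : Equiv.Perm (X × ℝ) where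
  toFun p := (p.1 + α, p.2 + φ p.1)
  invFun p := (p.1 - α, p.2 - φ (p.1 - α))
  left_inv p := by simp
  right_inv p := by simp

/-- The full `ℤ`-orbit of `p` under the cylindrical transformation. -/
def orbit {X : Type} [AddCommGroup X] (α : X) (φ : X → ℝ) (p : X × ℝ) : Set (X × ℝ) :=
  Set.range fun n : ℤ => (cyl α φ ^ n) p

/-- The orbit of `p` is discrete, in both senses: every point of the orbit has a neighbourhood
meeting the orbit only in that point, and the Birkhoff sums tend to infinity in absolute value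
as `|n| → ∞`. -/
def IsDiscreteOrbit {X : Type} [AddCommGroup X] [TopologicalSpace X] (α : X) (φ : X → ℝ)
    (p : X × ℝ) : Prop :=
  (∀ y ∈ orbit α φ p, ∃ U ∈ 𝓝 y, U ∩ orbit α φ p = {y}) ∧
    Tendsto (fun n : ℤ => |((cyl α φ ^ n) p).2 - p.2|) cofinite atTop

lemma isDiscreteOrbit_of_tendsto {X : Type} [AddCommGroup X] [MetricSpace X] (α : X) (φ : X → ℝ)
    (p : X × ℝ) (h : Tendsto (fun n : ℤ => |((cyl α φ ^ n) p).2 - p.2|) cofinite atTop) :
    IsDiscreteOrbit α φ p := by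
  refine ⟨fun y hy => ?_, h⟩
  have hfin : {n : ℤ | ¬(|y.2 - p.2| + 1 ≤ |((cyl α φ ^ n) p).2 - p.2|)}.Finite :=
    eventually_cofinite.1 (tendsto_atTop.1 h _)
  set K : Set (X × ℝ) := ((fun n : ℤ => (cyl α φ ^ n) p) ''
    {n : ℤ | ¬(|y.2 - p.2| + 1 ≤ |((cyl α φ ^ n) p).2 - p.2|)}) \ {y} with hK
  have hKc : IsClosed K := ((hfin.image _).subset Set.sdiff_subset).isClosed
  have hV : IsOpen {q : X × ℝ | |q.2 - p.2| < |y.2 - p.2| + 1} :=
    isOpen_lt (by fun_prop) continuous_const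
  refine ⟨{q : X × ℝ | |q.2 - p.2| < |y.2 - p.2| + 1} ∩ Kᶜ,
    (hV.inter hKc.isOpen_compl).mem_nhds ⟨by simp, by simp [hK]⟩, ?_⟩
  ext q
  constructor
  · rintro ⟨⟨h1, h2⟩, n, rfl⟩
    by_contra hne
    exact h2 ⟨⟨n, not_le.2 h1, rfl⟩, hne⟩
  · rintro rfl
    exact ⟨⟨by simp, by simp [hK]⟩, hy⟩

/-- residues of a 3-adic integer -/
noncomputable def res (x : ℤ_[3]) (k : ℕ) : ℤ := x.appr (mm (k + 1))

lemma res_spec (x : ℤ_[3]) (k : ℕ) :
    x - (res x k : ℤ_[3]) ∈ Ideal.span {((3 : ℕ) : ℤ_[3]) ^ mm (k + 1)} := by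
  simpa [res] using PadicInt.appr_spec (mm (k + 1)) x

lemma dvd_of_mem {x : ℤ_[3]} {k : ℕ} {a b : ℤ}
    (ha : x - (a : ℤ_[3]) ∈ Ideal.span {((3 : ℕ) : ℤ_[3]) ^ mm (k + 1)})
    (hb : x - (b : ℤ_[3]) ∈ Ideal.span {((3 : ℕ) : ℤ_[3]) ^ mm (k + 1)}) :
    (qq (k + 1) : ℤ) ∣ a - b := by
  have h := PadicInt.zmod_congr_of_sub_mem_span_aux (mm (k + 1)) x a b ha hb
  rw [qq_def]
  exact (ZMod.intCast_eq_intCast_iff_dvd_sub b a _).1 h.symm

lemma mem_of_dvd {k : ℕ} {a : ℤ} (h : (qq k : ℤ) ∣ a) :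
    (a : ℤ_[3]) ∈ Ideal.span {((3 : ℕ) : ℤ_[3]) ^ mm k} := by
  obtain ⟨c, rfl⟩ := h
  rw [Ideal.mem_span_singleton, qq_def]
  push_cast
  exact dvd_mul_right _ _

lemma res_add (x : ℤ_[3]) (n : ℤ) (k : ℕ) : (qq (k + 1) : ℤ) ∣ res (x + n) k - (res x k + n) := by
  refine dvd_of_mem (res_spec _ k) ?_
  have := res_spec x k
  convert this using 1
  push_cast
  ring

lemma res_compat (x : ℤ_[3]) (k l : ℕ) (h : k ≤ l) : (qq (k + 1) : ℤ) ∣ res x l - res x k := by
  refine dvd_of_mem ?_ (res_spec x k)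
  refine Ideal.span_singleton_le_span_singleton.2 ?_ (res_spec x l)
  exact pow_dvd_pow _ (mm_mono (by omega))

lemma compat_res (x : ℤ_[3]) : Compat fun k => (res x k : ℝ) := by
  intro k
  obtain ⟨c, hc⟩ := res_compat x k (k + 1) (by omega)
  refine ⟨c, ?_⟩
  have : res x (k + 1) = res x k + c * qq (k + 1) := by linarith
  simp only
  exact_mod_cast this

/-- the tent functions on the 3-adic integers -/
noncomputable def TT (k : ℕ) (x : ℤ_[3]) : ℝ := tent (qq (k + 1)) (res x k)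

lemma TT_add (k : ℕ) (x : ℤ_[3]) (n : ℤ) : TT k (x + n) = tent (qq (k + 1)) (res x k + n) := by
  have := tent_congr (res_add x n k)
  simpa [TT] using this

lemma continuous_TT (k : ℕ) : Continuous (TT k) := by
  refine IsLocallyConstant.continuous ((IsLocallyConstant.iff_eventually_eq _).2 fun x => ?_)
  have hr : (0 : ℝ) < ((3 : ℕ) : ℝ) ^ (-(mm (k + 1) : ℤ)) := by positivity
  filter_upwards [Metric.closedBall_mem_nhds x hr] with y hy
  rw [Metric.mem_closedBall, dist_eq_norm, PadicInt.norm_le_pow_iff_mem_span_pow] at hy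
  refine tent_congr (dvd_of_mem (res_spec y k) ?_)
  have := Ideal.add_mem _ hy (res_spec x k)
  convert this using 1
  ring

/-- the cocycle -/
noncomputable def phi (x : ℤ_[3]) : ℝ := FF (fun k => (res x k : ℝ)) 1

lemma continuous_phi : Continuous phi := by
  have : phi = fun x => ∑' k, ss k * (TT k (x + 1) - TT k x) := by
    ext x
    unfold phi FF
    congr 1
    ext k
    have := TT_add k x 1
    rw [Int.cast_one] at this
    rw [this]
    rfl
  rw [this]
  refine continuous_tsum (fun k => ?_) summable_ss fun k x => ?_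
  · have := continuous_TT k
    fun_prop
  · have h1 := TT_add k x 1
    rw [Int.cast_one] at h1
    have h2 := term_le k ((res x k : ℝ) + ((1 : ℤ) : ℝ)) (res x k)
    rw [h1]
    simpa [TT] using h2

lemma phi_add (x : ℤ_[3]) (n : ℤ) :
    phi (x + n) = FF (fun k => (res x k : ℝ)) (n + 1) - FF (fun k => (res x k : ℝ)) n := by
  rw [FF_sub]
  unfold phi
  have h : FF (fun k => (res (x + n) k : ℝ)) = FF fun k => (res x k : ℝ) + n := by
    refine FF_congr fun k => ?_
    obtain ⟨c, hc⟩ := res_add x n k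
    refine ⟨c, ?_⟩
    have : res (x + n) k = res x k + n + c * qq (k + 1) := by linarith
    exact_mod_cast this
  rw [h]
  unfold FF
  congr 1
  ext k
  push_cast
  rw [add_assoc]

lemma cyl_zpow (p : ℤ_[3] × ℝ) (n : ℤ) :
    (cyl 1 phi ^ n) p = (p.1 + n, p.2 + FF (fun k => (res p.1 k : ℝ)) n) := by
  have key : ∀ n : ℤ, cyl 1 phi (p.1 + n, p.2 + FF (fun k => (res p.1 k : ℝ)) n)
      = (p.1 + (n + 1 : ℤ), p.2 + FF (fun k => (res p.1 k : ℝ)) (n + 1)) := by
    intro n
    change (p.1 + n + 1, p.2 + FF (fun k => (res p.1 k : ℝ)) n + phi (p.1 + n)) = _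
    rw [phi_add]
    push_cast
    ext
    · simp only; ring
    · simp only; ring
  induction n using Int.induction_on with
  | zero => simp [FF_zero]
  | succ n ih =>
    rw [add_comm (n : ℤ) 1, zpow_one_add, Equiv.Perm.mul_apply, ih, key, add_comm (n : ℤ) 1]
  | pred n ih =>
    apply (cyl 1 phi).injective
    rw [key, ← Equiv.Perm.mul_apply, ← zpow_one_add]
    have : (1 : ℤ) + (-(n : ℤ) - 1) = -n := by ring
    rw [this, sub_add_cancel, ih]

lemma dense_of_unbounded (p : ℤ_[3] × ℝ)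
    (h1 : ¬BddBelow (Set.range (FF fun k => (res p.1 k : ℝ))))
    (h2 : ¬BddAbove (Set.range (FF fun k => (res p.1 k : ℝ)))) : Dense (orbit 1 phi p) := by
  rw [Metric.dense_iff]
  intro y ε hε
  obtain ⟨i, hi⟩ := PadicInt.exists_pow_neg_lt 3 hε
  obtain ⟨n, hn1, hn2⟩ := unbounded_case (res p.1) (res_compat p.1) h1 h2 i (res y.1 i)
    (y.2 - p.2) ε hε
  refine ⟨(cyl 1 phi ^ n) p, ?_, n, rfl⟩
  rw [cyl_zpow, Metric.mem_ball, Prod.dist_eq, max_lt_iff]
  constructor
  · have h3 : p.1 + n - y.1 ∈ Ideal.span {((3 : ℕ) : ℤ_[3]) ^ mm (i + 1)} := by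
      have := Ideal.sub_mem _ (Ideal.add_mem _ (res_spec p.1 i) (mem_of_dvd hn1)) (res_spec y.1 i)
      convert this using 1
      push_cast
      ring
    rw [← PadicInt.norm_le_pow_iff_mem_span_pow] at h3
    rw [dist_eq_norm]
    refine h3.trans_lt (lt_of_le_of_lt ?_ hi)
    apply zpow_le_zpow_right₀ (by norm_num)
    have := le_mm (i + 1)
    omega
  · rw [Real.dist_eq]
    have : p.2 + FF (fun k => (res p.1 k : ℝ)) n - y.2
        = FF (fun k => (res p.1 k : ℝ)) n - (y.2 - p.2) := by ring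
    simp only
    rw [this]
    exact hn2

lemma bddBelow_mirror {u : ℕ → ℝ} (h : BddAbove (Set.range (FF u))) :
    BddBelow (Set.range (FF fun k => u k - qq (k + 1) / 2)) := by
  obtain ⟨M, hM⟩ := h
  refine ⟨-M, ?_⟩
  rintro _ ⟨n, rfl⟩
  rw [FF_mirror]
  exact neg_le_neg (hM ⟨n, rfl⟩)

lemma discrete_of_bddBelow (p : ℤ_[3] × ℝ)
    (h : BddBelow (Set.range (FF fun k => (res p.1 k : ℝ)))) : IsDiscreteOrbit 1 phi p := by
  apply isDiscreteOrbit_of_tendsto
  have := (bddBelow_case (compat_res p.1) h).2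
  refine (tendsto_abs_atTop_atTop.comp this).congr fun n => ?_
  simp [cyl_zpow]

lemma discrete_of_bddAbove (p : ℤ_[3] × ℝ)
    (h : BddAbove (Set.range (FF fun k => (res p.1 k : ℝ)))) : IsDiscreteOrbit 1 phi p := by
  apply isDiscreteOrbit_of_tendsto
  have := (bddBelow_case (compat_res p.1).mirror (bddBelow_mirror h)).2
  refine (tendsto_abs_atTop_atTop.comp this).congr fun n => ?_
  simp [cyl_zpow, FF_mirror]

lemma two_mul_eq_int (x : ℤ_[3]) (k0 : ℕ) (c : ℝ)
    (h : ∀ k, k0 ≤ k → ∃ z : ℤ, (2 * res x k : ℝ) = c + z * qq (k + 1)) :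
    ∃ w : ℤ, 2 * x = w := by
  obtain ⟨z0, hz0⟩ := h k0 le_rfl
  set w : ℤ := 2 * res x k0 - z0 * qq (k0 + 1) with hw
  have hwc : (w : ℝ) = c := by rw [hw]; push_cast; linarith
  refine ⟨w, ?_⟩
  by_contra hne
  have hpos : 0 < ‖2 * x - w‖ := norm_pos_iff.2 (sub_ne_zero.2 hne)
  obtain ⟨i, hi⟩ := PadicInt.exists_pow_neg_lt 3 hpos
  obtain ⟨z, hz⟩ := h (max k0 i) (le_max_left _ _)
  have h1 : (qq (max k0 i + 1) : ℤ) ∣ 2 * res x (max k0 i) - w := by
    refine ⟨z, ?_⟩
    have : ((2 * res x (max k0 i) - w : ℤ) : ℝ) = ((qq (max k0 i + 1) * z : ℤ) : ℝ) := by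
      push_cast; rw [hz, hwc]; ring
    exact_mod_cast this
  have h3 : 2 * x - w ∈ Ideal.span {((3 : ℕ) : ℤ_[3]) ^ mm (max k0 i + 1)} := by
    have := Ideal.add_mem _ (Ideal.mul_mem_left _ 2 (res_spec x (max k0 i))) (mem_of_dvd h1)
    convert this using 1
    push_cast
    ring
  rw [← PadicInt.norm_le_pow_iff_mem_span_pow] at h3
  have h4 : ((3 : ℕ) : ℝ) ^ (-(mm (max k0 i + 1) : ℤ)) ≤ ((3 : ℕ) : ℝ) ^ (-(i : ℤ)) := by
    apply zpow_le_zpow_right₀ (by norm_num)
    have := le_mm (max k0 i + 1)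
    have := le_max_right k0 i
    omega
  linarith

lemma exists_quarter : ∃ x : ℤ_[3], ∀ w : ℤ, 2 * x ≠ w := by
  have h4 : IsUnit ((4 : ℕ) : ℤ_[3]) := by
    rw [PadicInt.isUnit_iff, PadicInt.norm_natCast_eq_one_iff]
    norm_num
  obtain ⟨x, hx⟩ := h4.exists_right_inv
  refine ⟨x, fun w hw => ?_⟩
  have h1 : ((2 * w : ℤ) : ℤ_[3]) = ((1 : ℤ) : ℤ_[3]) := by
    push_cast at hx ⊢
    rw [← hw, ← hx]
    ring
  have h2 : 2 * w = 1 := Int.cast_injective h1
  omega

/-- There are a minimal rotation of a compact metric abelian group and a continuous real function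
whose cylindrical transformation has a dense orbit, has a discrete orbit, and has only dense or
discrete orbits. -/
theorem result :
    ∃ (X : Type) (_ : MetricSpace X) (_ : CompactSpace X) (_ : AddCommGroup X)
      (_ : IsTopologicalAddGroup X) (α : X) (φ : X → ℝ),
      (∀ x : X, DenseRange fun n : ℤ => x + n • α) ∧ Continuous φ ∧
      (∃ p : X × ℝ, Dense (orbit α φ p)) ∧ (∃ p : X × ℝ, IsDiscreteOrbit α φ p) ∧
      ∀ p : X × ℝ, Dense (orbit α φ p) ∨ IsDiscreteOrbit α φ p := by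
  refine ⟨ℤ_[3], inferInstance, inferInstance, inferInstance, inferInstance, 1, phi,
    fun x => ?_, continuous_phi, ?_, ?_, fun p => ?_⟩
  · have h := (Homeomorph.addLeft x).surjective.denseRange.comp
      (PadicInt.denseRange_intCast (p := 3)) (Homeomorph.addLeft x).continuous
    convert h using 2
    simp
  · obtain ⟨x, hx⟩ := exists_quarter
    refine ⟨(x, 0), dense_of_unbounded _ (fun h => ?_) (fun h => ?_)⟩
    · obtain ⟨k0, c, hc⟩ := (bddBelow_case (compat_res x) h).1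
      obtain ⟨w, hw⟩ := two_mul_eq_int x k0 (2 * c) fun k hk => by
        obtain ⟨z, hz⟩ := hc k hk
        refine ⟨2 * z, ?_⟩
        push_cast
        linarith
      exact hx w hw
    · obtain ⟨k0, c, hc⟩ := (bddBelow_case (compat_res x).mirror (bddBelow_mirror h)).1
      obtain ⟨w, hw⟩ := two_mul_eq_int x k0 (2 * c) fun k hk => by
        obtain ⟨z, hz⟩ := hc k hk
        refine ⟨2 * z + 1, ?_⟩
        push_cast
        linarith
      exact hx w hw
  · refine ⟨(0, 0), discrete_of_bddBelow _ ⟨0, ?_⟩⟩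
    rintro _ ⟨n, rfl⟩
    refine tsum_nonneg fun k => mul_nonneg (ss_pos k).le ?_
    have h1 : tent (qq (k + 1)) (res (0 : ℤ_[3]) k) = tent (qq (k + 1)) ((0 : ℤ) : ℝ) :=
      tent_congr (dvd_of_mem (res_spec 0 k) (by simp))
    have h2 : tent (qq (k + 1)) ((0 : ℤ) : ℝ) = 0 := by simp [tent]
    have h3 := tent_nonneg (qq (k + 1)) ((res (0 : ℤ_[3]) k : ℝ) + n)
    simp only
    linarith
  · by_cases h1 : BddBelow (Set.range (FF fun k => (res p.1 k : ℝ)))
    · exact Or.inr (discrete_of_bddBelow p h1)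
    by_cases h2 : BddAbove (Set.range (FF fun k => (res p.1 k : ℝ)))
    · exact Or.inr (discrete_of_bddAbove p h2)
    exact Or.inl (dense_of_unbounded p h1 h2)

end Pool.Agent.Variants.MP_c1c973_an.DenseOrDiscrete
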